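import Pool.Agent.Helper63.MM.Defs4

/-!
Project MM, row B4.PGC: closure lemmas of the class `PGC`.
-/

open MeasureTheory

namespace CM.H17

variable {n : ℕ}

/-! ### polynomial growth -/

theorem pg_norm {f : E n → ℝ} (hf : PG f) :
    ∃ (C : ℝ) (k : ℕ), 0 ≤ C ∧ ∀ x, |f x| ≤ C * (1 + ‖x‖) ^ k := by
  obtain ⟨C, k, h⟩ := hf
  refine ⟨|C|, k, abs_nonneg C, fun x => le_trans (h x) ?_⟩
  exact mul_le_mul_of_nonneg_right (le_abs_self C) (by positivity)

theorem pow_up {a : ℝ} (ha : 1 ≤ a) {k l : ℕ} (h : k ≤ l) : a ^ k ≤ a ^ l :=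
  pow_le_pow_right₀ ha h

theorem pg_add {f g : E n → ℝ} (hf : PG f) (hg : PG g) : PG (fun x => f x + g x) := by
  obtain ⟨C, k, hC, h1⟩ := pg_norm hf
  obtain ⟨D, l, hD, h2⟩ := pg_norm hg
  refine ⟨C + D, max k l, fun x => ?_⟩
  have hx : (1 : ℝ) ≤ 1 + ‖x‖ := by linarith [norm_nonneg x]
  calc |f x + g x| ≤ |f x| + |g x| := abs_add_le _ _
    _ ≤ C * (1 + ‖x‖) ^ k + D * (1 + ‖x‖) ^ l := add_le_add (h1 x) (h2 x)
    _ ≤ C * (1 + ‖x‖) ^ (max k l) + D * (1 + ‖x‖) ^ (max k l) := by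
        refine add_le_add (mul_le_mul_of_nonneg_left (pow_up hx (le_max_left _ _)) hC)
          (mul_le_mul_of_nonneg_left (pow_up hx (le_max_right _ _)) hD)
    _ = (C + D) * (1 + ‖x‖) ^ (max k l) := by ring

theorem pg_mul {f g : E n → ℝ} (hf : PG f) (hg : PG g) : PG (fun x => f x * g x) := by
  obtain ⟨C, k, hC, h1⟩ := pg_norm hf
  obtain ⟨D, l, hD, h2⟩ := pg_norm hg
  refine ⟨C * D, k + l, fun x => ?_⟩
  calc |f x * g x| = |f x| * |g x| := abs_mul _ _
    _ ≤ (C * (1 + ‖x‖) ^ k) * (D * (1 + ‖x‖) ^ l) :=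
        mul_le_mul (h1 x) (h2 x) (abs_nonneg _) (by positivity)
    _ = C * D * (1 + ‖x‖) ^ (k + l) := by ring

theorem pg_const (c : ℝ) : PG (fun _ : E n => c) := ⟨|c|, 0, fun x => by simp⟩

theorem pg_coord (i : Fin n) : PG (fun x : E n => x i) := by
  refine ⟨1, 1, fun x => ?_⟩
  have : |x i| ≤ ‖x‖ := by
    have := EuclideanSpace.norm_eq x
    have h2 : |x i| ^ 2 ≤ ∑ j, ‖x j‖ ^ 2 := by
      have := Finset.single_le_sum (f := fun j => ‖x j‖ ^ 2) (fun j _ => sq_nonneg _)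
        (Finset.mem_univ i)
      simpa [Real.norm_eq_abs] using this
    rw [this]
    exact Real.le_sqrt_of_sq_le h2
  rw [one_mul, pow_one]
  linarith

theorem pg_of_bd {f : E n → ℝ} {M : ℝ} (h : ∀ x, |f x| ≤ M) : PG f :=
  ⟨M, 0, fun x => by simpa using h x⟩

/-! ### partial derivatives -/

theorem pdl_concat (l : List (Fin n)) (i : Fin n) (f : E n → ℝ) :
    pdl (l ++ [i]) f = pdl l (pd i f) := by
  induction l with
  | nil => rfl
  | cons j l ih =>
    change pd j (pdl (l ++ [i]) f) = pd j (pdl l (pd i f))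
    rw [ih]

theorem contDiff_pd {k : ℕ} {f : E n → ℝ} (hf : ContDiff ℝ (k + 1 : ℕ) f) (i : Fin n) :
    ContDiff ℝ k (pd i f) := by
  have h1 : ContDiff ℝ k (fderiv ℝ f) := hf.fderiv_right (by norm_cast)
  exact h1.clm_apply contDiff_const

/-- `fderiv` in terms of the partial derivatives. -/
theorem fderiv_eq_sum (f : E n → ℝ) (x v : E n) : fderiv ℝ f x v = ∑ i, v i * pd i f x := by
  have hv : v = ∑ i, v i • EuclideanSpace.single i (1 : ℝ) := by
    ext j
    simp [Finset.sum_apply, Pi.single_apply]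
  conv_lhs => rw [hv]
  rw [map_sum]
  refine Finset.sum_congr rfl fun i _ => ?_
  rw [map_smul, smul_eq_mul]
  rfl

theorem abs_coord_le (x : E n) (i : Fin n) : |x i| ≤ ‖x‖ := by
  have h := EuclideanSpace.norm_eq x
  have h2 : |x i| ^ 2 ≤ ∑ j, ‖x j‖ ^ 2 := by
    have := Finset.single_le_sum (f := fun j => ‖x j‖ ^ 2) (fun j _ => sq_nonneg _)
      (Finset.mem_univ i)
    simpa [Real.norm_eq_abs] using this
  rw [h]
  exact Real.le_sqrt_of_sq_le h2

/-- bound for the derivative -/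
theorem norm_fderiv_le_of_pd {f : E n → ℝ} {x : E n} {B : ℝ} (hB : 0 ≤ B)
    (h : ∀ i, |pd i f x| ≤ B) : ‖fderiv ℝ f x‖ ≤ n * B := by
  refine ContinuousLinearMap.opNorm_le_bound _ (by positivity) fun v => ?_
  rw [fderiv_eq_sum, Real.norm_eq_abs]
  calc |∑ i, v i * pd i f x| ≤ ∑ i, |v i * pd i f x| := Finset.abs_sum_le_sum_abs _ _
    _ ≤ ∑ _i : Fin n, ‖v‖ * B := by
        refine Finset.sum_le_sum fun i _ => ?_
        rw [abs_mul]
        exact mul_le_mul (abs_coord_le v i) (h i) (abs_nonneg _) (norm_nonneg _)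
    _ = n * B * ‖v‖ := by
        rw [Finset.sum_const, Finset.card_univ, Fintype.card_fin, nsmul_eq_mul]
        ring

/-- A `C^1` function whose partial derivatives have polynomial growth has polynomial growth. -/
theorem pg_of_pd {f : E n → ℝ} (hf : ContDiff ℝ 1 f) (h : ∀ i, PG (pd i f)) : PG f := by
  choose C k hC hk using fun i => pg_norm (h i)
  set B : ℝ := ∑ i, C i with hB
  have hB0 : 0 ≤ B := Finset.sum_nonneg fun i _ => hC i
  set K : ℕ := ∑ i, k i with hK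
  have hall : ∀ i x, |pd i f x| ≤ B * (1 + ‖x‖) ^ K := by
    intro i x
    have hx : (1 : ℝ) ≤ 1 + ‖x‖ := by linarith [norm_nonneg x]
    have h1 : C i ≤ B := Finset.single_le_sum (f := C) (fun j _ => hC j) (Finset.mem_univ i)
    have h2 : k i ≤ K := Finset.single_le_sum (f := k) (fun j _ => Nat.zero_le _)
      (Finset.mem_univ i)
    calc |pd i f x| ≤ C i * (1 + ‖x‖) ^ k i := hk i x
      _ ≤ B * (1 + ‖x‖) ^ K :=
          mul_le_mul h1 (pow_up hx h2) (by positivity) hB0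
  refine ⟨|f 0| + n * B, K + 1, fun x => ?_⟩
  have hseg : ‖f x - f 0‖ ≤ (n * (B * (1 + ‖x‖) ^ K)) * ‖x - 0‖ := by
    refine Convex.norm_image_sub_le_of_norm_fderiv_le (𝕜 := ℝ) (s := Metric.closedBall 0 ‖x‖)
      (fun y _ => hf.differentiable (by norm_num) y) (fun y hy => ?_)
      (convex_closedBall _ _) (by simp) (by simp)
    have hy' : ‖y‖ ≤ ‖x‖ := by simpa using hy
    refine norm_fderiv_le_of_pd (by positivity) fun i => le_trans (hall i y) ?_
    refine mul_le_mul_of_nonneg_left ?_ hB0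
    exact pow_le_pow_left₀ (by positivity) (by linarith) K
  rw [sub_zero, Real.norm_eq_abs] at hseg
  have hx : (1 : ℝ) ≤ 1 + ‖x‖ := by linarith [norm_nonneg x]
  have h3 : |f x| ≤ |f 0| + |f x - f 0| := by
    have := abs_add_le (f 0) (f x - f 0)
    rwa [add_sub_cancel] at this
  have h4 : |f 0| ≤ |f 0| * (1 + ‖x‖) ^ (K + 1) :=
    le_mul_of_one_le_right (abs_nonneg _) (one_le_pow₀ hx)
  have h5 : (n * (B * (1 + ‖x‖) ^ K)) * ‖x‖ ≤ n * B * (1 + ‖x‖) ^ (K + 1) := by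
    have : n * B * (1 + ‖x‖) ^ (K + 1) = (n * (B * (1 + ‖x‖) ^ K)) * (1 + ‖x‖) := by ring
    rw [this]
    exact mul_le_mul_of_nonneg_left (by linarith) (by positivity)
  calc |f x| ≤ |f 0| + |f x - f 0| := h3
    _ ≤ |f 0| * (1 + ‖x‖) ^ (K + 1) + n * B * (1 + ‖x‖) ^ (K + 1) :=
        add_le_add h4 (le_trans hseg h5)
    _ = (|f 0| + n * B) * (1 + ‖x‖) ^ (K + 1) := by ring

/-! ### the class `PGC` -/

theorem pgc_mono {k l : ℕ} (h : k ≤ l) {f : E n → ℝ} (hf : PGC l f) : PGC k f :=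
  ⟨hf.1.of_le (by exact_mod_cast h), fun m hm => hf.2 m (le_trans hm h)⟩

theorem pgc_pg {k : ℕ} {f : E n → ℝ} (hf : PGC k f) : PG f := hf.2 [] (Nat.zero_le _)

theorem pgc_zero_iff {f : E n → ℝ} : PGC 0 f ↔ Continuous f ∧ PG f := by
  constructor
  · intro h
    exact ⟨h.1.continuous, pgc_pg h⟩
  · rintro ⟨h1, h2⟩
    refine ⟨contDiff_zero.2 h1, fun l hl => ?_⟩
    have : l = [] := List.length_eq_zero_iff.1 (Nat.le_zero.1 hl)
    subst this
    exact h2

theorem pgc_pd {k : ℕ} {f : E n → ℝ} (hf : PGC (k + 1) f) (i : Fin n) : PGC k (pd i f) := by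
  refine ⟨contDiff_pd hf.1 i, fun l hl => ?_⟩
  rw [← pdl_concat]
  exact hf.2 _ (by simpa using hl)

theorem pgc_succ_iff {k : ℕ} {f : E n → ℝ} :
    PGC (k + 1) f ↔ ContDiff ℝ (k + 1 : ℕ) f ∧ PG f ∧ ∀ i, PGC k (pd i f) := by
  constructor
  · intro h
    exact ⟨h.1, pgc_pg h, pgc_pd h⟩
  · rintro ⟨h1, h2, h3⟩
    refine ⟨h1, fun l hl => ?_⟩
    rcases List.eq_nil_or_concat l with rfl | ⟨l', i, rfl⟩
    · exact h2
    · rw [List.concat_eq_append, pdl_concat]
      refine (h3 i).2 l' ?_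
      simpa using hl

/-- the growth of the function itself is a consequence -/
theorem pgc_succ_of {k : ℕ} {f : E n → ℝ} (h1 : ContDiff ℝ (k + 1 : ℕ) f)
    (h3 : ∀ i, PGC k (pd i f)) : PGC (k + 1) f := by
  refine pgc_succ_iff.2 ⟨h1, pg_of_pd (h1.of_le ?_) fun i => pgc_pg (h3 i), h3⟩
  norm_cast
  omega

theorem pd_const (i : Fin n) (c : ℝ) : pd i (fun _ : E n => c) = fun _ => 0 := by
  funext x
  simp [pd]

theorem pgc_const (k : ℕ) (c : ℝ) : PGC k (fun _ : E n => c) := by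
  induction k generalizing c with
  | zero => exact pgc_zero_iff.2 ⟨continuous_const, pg_const c⟩
  | succ k ih =>
    refine pgc_succ_iff.2 ⟨contDiff_const, pg_const c, fun i => ?_⟩
    rw [pd_const]
    exact ih 0

theorem contDiff_coord {m : WithTop ℕ∞} (i : Fin n) : ContDiff ℝ m (fun x : E n => x i) :=
  (EuclideanSpace.proj (𝕜 := ℝ) i : E n →L[ℝ] ℝ).contDiff

theorem pd_coord (i j : Fin n) : pd j (fun x : E n => x i) = fun _ => if i = j then 1 else 0 := by
  funext x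
  have h : (fun x : E n => x i) = (EuclideanSpace.proj (𝕜 := ℝ) i : E n →L[ℝ] ℝ) := rfl
  rw [pd, h, ContinuousLinearMap.fderiv]
  simp

theorem pgc_coord (k : ℕ) (i : Fin n) : PGC k (fun x : E n => x i) := by
  cases k with
  | zero => exact pgc_zero_iff.2 ⟨(contDiff_coord (m := 0) i).continuous, pg_coord i⟩
  | succ k =>
    refine pgc_succ_iff.2 ⟨contDiff_coord i, pg_coord i, fun j => ?_⟩
    rw [pd_coord]
    exact pgc_const k _

theorem pd_add {f g : E n → ℝ} (hf : Differentiable ℝ f) (hg : Differentiable ℝ g) (i : Fin n) :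
    pd i (fun x => f x + g x) = fun x => pd i f x + pd i g x := by
  funext x
  simp only [pd]
  rw [fderiv_fun_add (hf x) (hg x)]
  rfl

theorem pd_sub {f g : E n → ℝ} (hf : Differentiable ℝ f) (hg : Differentiable ℝ g) (i : Fin n) :
    pd i (fun x => f x - g x) = fun x => pd i f x - pd i g x := by
  funext x
  simp only [pd]
  rw [fderiv_fun_sub (hf x) (hg x)]
  rfl

theorem pd_mul {f g : E n → ℝ} (hf : Differentiable ℝ f) (hg : Differentiable ℝ g) (i : Fin n) :
    pd i (fun x => f x * g x) = fun x => pd i f x * g x + f x * pd i g x := by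
  funext x
  simp only [pd]
  rw [fderiv_fun_mul (hf x) (hg x)]
  simp only [add_apply, smul_apply, smul_eq_mul]
  ring

theorem pgc_diff {k : ℕ} {f : E n → ℝ} (hf : PGC (k + 1) f) : Differentiable ℝ f :=
  hf.1.differentiable (by norm_cast)

theorem pgc_add {k : ℕ} {f g : E n → ℝ} (hf : PGC k f) (hg : PGC k g) :
    PGC k (fun x => f x + g x) := by
  induction k generalizing f g with
  | zero =>
    exact pgc_zero_iff.2 ⟨hf.1.continuous.add hg.1.continuous, pg_add (pgc_pg hf) (pgc_pg hg)⟩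
  | succ k ih =>
    refine pgc_succ_iff.2 ⟨hf.1.add hg.1, pg_add (pgc_pg hf) (pgc_pg hg), fun i => ?_⟩
    rw [pd_add (pgc_diff hf) (pgc_diff hg)]
    exact ih (pgc_pd hf i) (pgc_pd hg i)

theorem pgc_mul {k : ℕ} {f g : E n → ℝ} (hf : PGC k f) (hg : PGC k g) :
    PGC k (fun x => f x * g x) := by
  induction k generalizing f g with
  | zero =>
    exact pgc_zero_iff.2 ⟨hf.1.continuous.mul hg.1.continuous, pg_mul (pgc_pg hf) (pgc_pg hg)⟩
  | succ k ih =>
    refine pgc_succ_iff.2 ⟨hf.1.mul hg.1, pg_mul (pgc_pg hf) (pgc_pg hg), fun i => ?_⟩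
    rw [pd_mul (pgc_diff hf) (pgc_diff hg)]
    exact pgc_add (ih (pgc_pd hf i) (pgc_mono (Nat.le_succ k) hg))
      (ih (pgc_mono (Nat.le_succ k) hf) (pgc_pd hg i))

theorem pgc_smul {k : ℕ} {f : E n → ℝ} (c : ℝ) (hf : PGC k f) : PGC k (fun x => c * f x) :=
  pgc_mul (pgc_const k c) hf

theorem pgc_neg {k : ℕ} {f : E n → ℝ} (hf : PGC k f) : PGC k (fun x => - f x) := by
  have := pgc_smul (-1) hf
  simpa using this

theorem pgc_sub {k : ℕ} {f g : E n → ℝ} (hf : PGC k f) (hg : PGC k g) :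
    PGC k (fun x => f x - g x) := by
  have := pgc_add hf (pgc_neg hg)
  simpa [sub_eq_add_neg] using this

theorem pgc_sum {ι : Type} (s : Finset ι) {k : ℕ} {f : ι → E n → ℝ} (hf : ∀ i ∈ s, PGC k (f i)) :
    PGC k (fun x => ∑ i ∈ s, f i x) := by
  classical
  induction s using Finset.induction_on with
  | empty => simpa using pgc_const (n := n) k 0
  | insert a s ha ih =>
    have h1 : (fun x => ∑ i ∈ insert a s, f i x) = fun x => f a x + ∑ i ∈ s, f i x := by
      funext x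
      rw [Finset.sum_insert ha]
    rw [h1]
    exact pgc_add (hf a (Finset.mem_insert_self a s))
      (ih fun i hi => hf i (Finset.mem_insert_of_mem hi))

theorem pgc_pow {k : ℕ} {f : E n → ℝ} (hf : PGC k f) (m : ℕ) : PGC k (fun x => f x ^ m) := by
  induction m with
  | zero => simpa using pgc_const (n := n) k 1
  | succ m ih =>
    have h1 : (fun x => f x ^ (m + 1)) = fun x => f x ^ m * f x := by
      funext x
      rw [pow_succ]
    rw [h1]
    exact pgc_mul ih hf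

theorem pgc_of_HB {k : ℕ} {M : ℝ} {u : E n → ℝ} (hu : HB k M u) : PGC k u :=
  ⟨hu.1, fun l hl => pg_of_bd (hu.2 l hl).1⟩

/-- `H2` functions have polynomial growth. -/
theorem pgc_of_H2 {k : ℕ} {M : ℝ} {u : E n → ℝ} (hu : H2 k M u) : PGC (k + 2) u := by
  refine pgc_succ_of hu.1 fun j => pgc_succ_of (contDiff_pd (k := k + 1) hu.1 j) fun i => ?_
  exact pgc_of_HB (hu.2 i j)

end CM.H17
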